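import Mathlib

/-!
Hand-in OrthoIdentity: definitions of the statement
-/

namespace Pool.H21.MV.OrthoIdentity

universe u

/-- An ortholattice: a bounded lattice with an order-reversing involution that sends each element
to a complement of it. -/
class Ortholattice (L : Type u) extends Lattice L, BoundedOrder L where
  /-- the orthocomplementation -/
  ortho : L → L
  ortho_ortho : ∀ a : L, ortho (ortho a) = a
  ortho_anti : ∀ a b : L, a ≤ b → ortho b ≤ ortho a
  inf_ortho : ∀ a : L, a ⊓ ortho a = ⊥
  sup_ortho : ∀ a : L, a ⊔ ortho a = ⊤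

/-- Ortholattice terms in variables from `X`. -/
inductive OTerm (X : Type)
  | var : X → OTerm X
  | bot : OTerm X
  | top : OTerm X
  | join : OTerm X → OTerm X → OTerm X
  | meet : OTerm X → OTerm X → OTerm X
  | ortho : OTerm X → OTerm X

/-- The value of an ortholattice term at an assignment of the variables. -/
def OTerm.eval {X : Type} {L : Type u} [Ortholattice L] (v : X → L) : OTerm X → L
  | .var x => v x
  | .bot => ⊥
  | .top => ⊤
  | .join s t => s.eval v ⊔ t.eval v
  | .meet s t => s.eval v ⊓ t.eval v
  | .ortho s => Ortholattice.ortho (s.eval v)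

section Bip

variable {E : Type u}

/-- A binary relation on `E` (a set of pairs) is closed if it is transitive. -/
def Closed (a : Set (E × E)) : Prop :=
  ∀ i j k : E, (i, j) ∈ a → (j, k) ∈ a → (i, k) ∈ a

/-- The transitive closure. -/
def cl (a : Set (E × E)) : Set (E × E) :=
  {p | Relation.TransGen (fun i j => (i, j) ∈ a) p.1 p.2}

/-- The interior, relative to the full relation `E × E`: the complement of the transitive closure
of the complement. -/
def int (a : Set (E × E)) : Set (E × E) := (cl aᶜ)ᶜ

theorem subset_cl (a : Set (E × E)) : a ⊆ cl a := fun _ h => Relation.TransGen.single h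

theorem closed_cl (a : Set (E × E)) : Closed (cl a) := fun _ _ _ h1 h2 =>
  Relation.TransGen.trans h1 h2

theorem cl_subset {a b : Set (E × E)} (hb : Closed b) (h : a ⊆ b) : cl a ⊆ b := by
  rintro ⟨i, j⟩ hij
  change Relation.TransGen (fun i j => (i, j) ∈ a) i j at hij
  induction hij with
  | single h1 => exact h h1
  | tail _ h1 ih => exact hb _ _ _ ih (h h1)

theorem cl_eq {a : Set (E × E)} (ha : Closed a) : cl a = a :=
  Set.Subset.antisymm (cl_subset ha subset_rfl) (subset_cl a)

theorem int_subset (a : Set (E × E)) : int a ⊆ a := by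
  intro p hp
  by_contra h
  exact hp (subset_cl _ h)

theorem closed_compl_int (a : Set (E × E)) : Closed (int a)ᶜ := by
  unfold int
  rw [compl_compl]
  exact closed_cl _

theorem subset_int {a b : Set (E × E)} (hb : Closed bᶜ) (h : b ⊆ a) : b ⊆ int a := by
  unfold int
  rw [Set.subset_compl_comm]
  exact cl_subset hb (Set.compl_subset_compl.2 h)

/-- The transitive closure of an open relation is open. -/
theorem closed_compl_cl {a : Set (E × E)} (ha : Closed aᶜ) : Closed (cl a)ᶜ := by
  intro i j k hij hjk hik
  change Relation.TransGen (fun i j => (i, j) ∈ a) i k at hik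
  rcases Relation.TransGen.head'_iff.1 hik with ⟨m, him, hmk⟩
  by_cases h1 : (i, j) ∈ a
  · exact hij (subset_cl _ h1)
  · have h2 : (j, m) ∈ a := by
      by_contra h2
      exact ha i j m h1 h2 him
    exact hjk (Relation.TransGen.head' h2 hmk)

/-- The lattice `Bip(E) = Reg(E × E)`: the regular closed subsets of the full relation on `E`,
ordered by inclusion. -/
structure Bip (E : Type u) where
  /-- the underlying set of pairs -/
  carrier : Set (E × E)
  regular : carrier = cl (int carrier)

namespace Bip

theorem ext' {x y : Bip E} (h : x.carrier = y.carrier) : x = y := by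
  cases x; cases y; cases h; rfl

theorem closed (x : Bip E) : Closed x.carrier := by
  rw [x.regular]; exact closed_cl _

theorem closed_compl (x : Bip E) : Closed x.carrierᶜ := by
  rw [x.regular]; exact closed_compl_cl (closed_compl_int _)

theorem regular_of {a : Set (E × E)} (h1 : Closed a) (h2 : Closed aᶜ) : a = cl (int a) := by
  have : int a = a := Set.Subset.antisymm (int_subset a) (subset_int h2 subset_rfl)
  rw [this, cl_eq h1]

theorem regular_cl {a : Set (E × E)} (h2 : Closed aᶜ) : cl a = cl (int (cl a)) :=
  regular_of (closed_cl a) (closed_compl_cl h2)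

/-- The lattice structure: inclusion order, `x ⊔ y = cl (x ∪ y)`, `x ⊓ y = cl (int (x ∩ y))`. -/
instance : Lattice (Bip E) where
  le x y := x.carrier ⊆ y.carrier
  le_refl x := subset_rfl
  le_trans x y z h1 h2 := h1.trans h2
  le_antisymm x y h1 h2 := ext' (Set.Subset.antisymm h1 h2)
  sup x y := ⟨cl (x.carrier ∪ y.carrier), regular_cl (by
    intro i j k h1 h2
    simp only [Set.mem_compl_iff, Set.mem_union, not_or] at h1 h2 ⊢
    exact ⟨x.closed_compl i j k h1.1 h2.1, y.closed_compl i j k h1.2 h2.2⟩)⟩
  le_sup_left x y := Set.subset_union_left.trans (subset_cl _)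
  le_sup_right x y := Set.subset_union_right.trans (subset_cl _)
  sup_le x y z h1 h2 := cl_subset z.closed (Set.union_subset h1 h2)
  inf x y := ⟨cl (int (x.carrier ∩ y.carrier)), regular_cl (closed_compl_int _)⟩
  inf_le_left x y := cl_subset x.closed ((int_subset _).trans Set.inter_subset_left)
  inf_le_right x y := cl_subset y.closed ((int_subset _).trans Set.inter_subset_right)
  le_inf x y z h1 h2 := (subset_int x.closed_compl (Set.subset_inter h1 h2)).trans (subset_cl _)

/-- The ortholattice structure: the orthocomplement of `x` is `cl (E × E ∖ x)`. -/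
instance : Ortholattice (Bip E) where
  bot := ⟨∅, regular_of (fun _ _ _ h => h.elim) (fun _ _ _ _ _ h => h)⟩
  bot_le x := Set.empty_subset _
  top := ⟨Set.univ, regular_of (fun _ _ _ _ _ => trivial) (fun _ _ _ h => (h trivial).elim)⟩
  le_top x := Set.subset_univ _
  ortho x := ⟨cl x.carrierᶜ, regular_cl (by rw [compl_compl]; exact x.closed)⟩
  ortho_ortho x := by
    apply ext'
    change cl (cl x.carrierᶜ)ᶜ = x.carrier
    rw [cl_eq x.closed_compl, compl_compl, cl_eq x.closed]
  ortho_anti x y h := by
    change cl y.carrierᶜ ⊆ cl x.carrierᶜ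
    rw [cl_eq x.closed_compl, cl_eq y.closed_compl]
    exact Set.compl_subset_compl.2 h
  inf_ortho x := by
    apply ext'
    change cl (int (x.carrier ∩ cl x.carrierᶜ)) = ∅
    rw [cl_eq x.closed_compl, Set.inter_compl_self]
    apply Set.eq_empty_of_subset_empty
    exact cl_subset (fun _ _ _ h => h.elim) (int_subset _)
  sup_ortho x := by
    apply ext'
    change cl (x.carrier ∪ cl x.carrierᶜ) = Set.univ
    rw [cl_eq x.closed_compl, Set.union_compl_self]
    exact Set.eq_univ_of_univ_subset (subset_cl _)

end Bip

end Bip

/-- The term `((p∧x)∨(p∧y))∧((p∧x)∨(p∧y'))∧((p∧x')∨(p∧y))∧((p∧x')∨(p∧y'))`, where `p, x, y` are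
the variables `0, 1, 2`. -/
def commTerm : OTerm (Fin 4) :=
  .meet
    (.meet (.join (.meet (.var 0) (.var 1)) (.meet (.var 0) (.var 2)))
      (.join (.meet (.var 0) (.var 1)) (.meet (.var 0) (.ortho (.var 2)))))
    (.meet (.join (.meet (.var 0) (.ortho (.var 1))) (.meet (.var 0) (.var 2)))
      (.join (.meet (.var 0) (.ortho (.var 1))) (.meet (.var 0) (.ortho (.var 2)))))

/-- The left-hand side `commTerm ∧ (p' ∨ z)` of the identity. -/
def lhs : OTerm (Fin 4) := .meet commTerm (.join (.ortho (.var 0)) (.var 3))

/-- The right-hand side `commTerm ∧ z` of the identity. -/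
def rhs : OTerm (Fin 4) := .meet commTerm (.var 3)

end Pool.H21.MV.OrthoIdentity
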