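import Mathlib
import Pool.Agent.H21.MV.OrthoIdentityDefs

/-!
Hand-in OrthoIdentity: the proof
-/

namespace Pool.H21.MV.OrthoIdentity

universe u

section Bip

variable {E : Type u}

namespace Bip

theorem le_def {x y : Bip E} : x ≤ y ↔ x.carrier ⊆ y.carrier := Iff.rfl

theorem ortho_carrier (x : Bip E) : (Ortholattice.ortho x).carrier = x.carrierᶜ :=
  cl_eq x.closed_compl

theorem sup_carrier (x y : Bip E) : (x ⊔ y).carrier = cl (x.carrier ∪ y.carrier) := rfl

/-- Key fact: a pair of `x ⊔ y` whose reverse is not in `x ⊔ y` lies in `x` or in `y`. -/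
theorem mem_or_mem {x y : Bip E} {i j : E} (h : (i, j) ∈ (x ⊔ y).carrier)
    (h' : (j, i) ∉ (x ⊔ y).carrier) : (i, j) ∈ x.carrier ∨ (i, j) ∈ y.carrier := by
  have hx : x.carrier ⊆ (x ⊔ y).carrier := le_def.1 le_sup_left
  have hy : y.carrier ⊆ (x ⊔ y).carrier := le_def.1 le_sup_right
  have hcl : Closed (x ⊔ y).carrier := (x ⊔ y).closed
  have key : ∀ m, Relation.TransGen (fun i j => (i, j) ∈ x.carrier ∪ y.carrier) i m →
      (i, m) ∈ x.carrier ∪ y.carrier ∨
        ∃ q, (i, q) ∈ x.carrier ∪ y.carrier ∧ (q, i) ∈ (x ⊔ y).carrier := by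
    intro m hm
    induction hm with
    | single h1 => exact Or.inl h1
    | @tail b c _ hbc ih =>
      rcases ih with ih | ih
      · rcases hbc with h1 | h1
        · by_cases h2 : (i, c) ∈ x.carrier
          · exact Or.inl (Or.inl h2)
          · refine Or.inr ⟨b, ih, hx ?_⟩
            by_contra h3
            exact x.closed_compl b i c h3 h2 h1
        · by_cases h2 : (i, c) ∈ y.carrier
          · exact Or.inl (Or.inr h2)
          · refine Or.inr ⟨b, ih, hy ?_⟩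
            by_contra h3
            exact y.closed_compl b i c h3 h2 h1
      · exact Or.inr ih
  rcases key j h with h1 | ⟨q, hiq, hqi⟩
  · exact h1
  · by_contra hcon
    rw [not_or] at hcon
    apply h'
    rcases hiq with h1 | h1
    · have : (j, q) ∈ x.carrier := by
        by_contra h2
        exact x.closed_compl i j q hcon.1 h2 h1
      exact hcl j q i (hx this) hqi
    · have : (j, q) ∈ y.carrier := by
        by_contra h2
        exact y.closed_compl i j q hcon.2 h2 h1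
      exact hcl j q i (hy this) hqi

/-- If `M ≤ P` and the reverse of each pair of `M` lies in `P` then `M` is empty or `P` is
everything. -/
theorem bot_or_top {M P : Bip E} (h : M ≤ P)
    (h' : ∀ i j, (i, j) ∈ M.carrier → (j, i) ∈ P.carrier) : M = ⊥ ∨ P = ⊤ := by
  by_contra hcon
  rw [not_or] at hcon
  obtain ⟨hM, hP⟩ := hcon
  have hM' : ∃ i j, (i, j) ∈ M.carrier := by
    by_contra hc
    push Not at hc
    exact hM (ext' (Set.eq_empty_of_forall_notMem fun p hp => hc p.1 p.2 hp))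
  have hP' : ∃ k l, (k, l) ∉ P.carrier := by
    by_contra hc
    push Not at hc
    exact hP (ext' (Set.eq_univ_of_forall fun p => hc p.1 p.2))
  obtain ⟨i, j, hij⟩ := hM'
  obtain ⟨k, l, hkl⟩ := hP'
  have hs : ∀ {i j}, (i, j) ∈ M.carrier → (i, j) ∈ P.carrier := fun hh => h hh
  have hji := h' i j hij
  have tr := P.closed
  have alt : ∀ m, (i, m) ∈ M.carrier ∨ (m, j) ∈ M.carrier := by
    intro m
    by_contra hc
    rw [not_or] at hc
    exact M.closed_compl i m j hc.1 hc.2 hij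
  rcases alt k with hk | hk
  · -- `k → i` in `P`
    have hki := h' _ _ hk
    rcases alt l with hl | hl
    · exact hkl (tr _ _ _ hki (hs hl))
    · exact hkl (tr _ _ _ hki (tr _ _ _ (hs hij) (h' _ _ hl)))
  · have hkj := hs hk
    rcases alt l with hl | hl
    · exact hkl (tr _ _ _ hkj (tr _ _ _ hji (hs hl)))
    · exact hkl (tr _ _ _ hkj (h' _ _ hl))

end Bip

end Bip

/-- The relative commutator of `x` and `y` below `p`, as an ortholattice element:
`((p⊓x)⊔(p⊓y)) ⊓ ((p⊓x)⊔(p⊓y')) ⊓ ((p⊓x')⊔(p⊓y)) ⊓ ((p⊓x')⊔(p⊓y'))`. -/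
def comm {L : Type u} [Ortholattice L] (p x y : L) : L :=
  (((p ⊓ x) ⊔ (p ⊓ y)) ⊓ ((p ⊓ x) ⊔ (p ⊓ Ortholattice.ortho y))) ⊓
    (((p ⊓ Ortholattice.ortho x) ⊔ (p ⊓ y)) ⊓
      ((p ⊓ Ortholattice.ortho x) ⊔ (p ⊓ Ortholattice.ortho y)))

theorem comm_le {L : Type u} [Ortholattice L] (p x y : L) : comm p x y ≤ p :=
  (inf_le_left.trans inf_le_left).trans (sup_le inf_le_left inf_le_left)

theorem Bip.comm_bot_or {E : Type u} (p x y : Bip E) : comm p x y = ⊥ ∨ p = ⊤ := by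
  apply Bip.bot_or_top (comm_le p x y)
  intro i j hij
  by_contra hji
  have hle : ∀ {u : Bip E}, u ≤ p → (j, i) ∉ u.carrier := fun hu hh => hji (hu hh)
  have d : ∀ {u v : Bip E}, comm p x y ≤ (p ⊓ u) ⊔ (p ⊓ v) →
      (i, j) ∈ (p ⊓ u).carrier ∨ (i, j) ∈ (p ⊓ v).carrier := fun hu =>
    Bip.mem_or_mem (hu hij) (hle (sup_le inf_le_left inf_le_left))
  have e : ∀ u : Bip E, (i, j) ∈ (p ⊓ u).carrier →
      (i, j) ∉ (p ⊓ Ortholattice.ortho u).carrier := by
    intro u h1 h2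
    have h1' : (i, j) ∈ u.carrier := (inf_le_right : p ⊓ u ≤ u) h1
    have h2' : (i, j) ∈ (Ortholattice.ortho u).carrier :=
      (inf_le_right : p ⊓ Ortholattice.ortho u ≤ Ortholattice.ortho u) h2
    rw [Bip.ortho_carrier] at h2'
    exact h2' h1'
  have h1 := d (u := x) (v := y) (inf_le_left.trans inf_le_left)
  have h2 := d (u := x) (v := Ortholattice.ortho y) (inf_le_left.trans inf_le_right)
  have h3 := d (u := Ortholattice.ortho x) (v := y) (inf_le_right.trans inf_le_left)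
  have h4 := d (u := Ortholattice.ortho x) (v := Ortholattice.ortho y)
    (inf_le_right.trans inf_le_right)
  have h5 := e x
  have h6 := e y
  tauto

theorem ortho_top {L : Type u} [Ortholattice L] : Ortholattice.ortho (⊤ : L) = ⊥ := by
  have := Ortholattice.inf_ortho (⊤ : L)
  rwa [top_inf_eq] at this

theorem Bip.identity {E : Type u} (p x y z : Bip E) :
    comm p x y ⊓ (Ortholattice.ortho p ⊔ z) = comm p x y ⊓ z := by
  rcases Bip.comm_bot_or p x y with h | h
  · rw [h, bot_inf_eq, bot_inf_eq]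
  · rw [h, ortho_top, bot_sup_eq]

/-- The underlying type of a 14-element orthomodular lattice. -/
structure H where
  /-- index -/
  val : Fin 14
  deriving DecidableEq

namespace H

/-- Table of joins. -/
def joinT : List (List ℕ) := [
 [0, 1, 2, 3, 4, 5, 6, 7, 8, 9, 10, 11, 12, 13],
 [1, 1, 5, 5, 5, 5, 7, 7, 13, 13, 13, 13, 13, 13],
 [2, 5, 2, 5, 5, 5, 8, 13, 8, 13, 13, 13, 13, 13],
 [3, 5, 5, 3, 5, 5, 9, 13, 13, 9, 13, 13, 13, 13],
 [4, 5, 5, 5, 4, 5, 10, 13, 13, 13, 10, 13, 13, 13],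
 [5, 5, 5, 5, 5, 5, 13, 13, 13, 13, 13, 13, 13, 13],
 [6, 7, 8, 9, 10, 13, 6, 7, 8, 9, 10, 13, 13, 13],
 [7, 7, 13, 13, 13, 13, 7, 7, 13, 13, 13, 13, 13, 13],
 [8, 13, 8, 13, 13, 13, 8, 13, 8, 13, 13, 13, 13, 13],
 [9, 13, 13, 9, 13, 13, 9, 13, 13, 9, 13, 13, 13, 13],
 [10, 13, 13, 13, 10, 13, 10, 13, 13, 13, 10, 13, 13, 13],
 [11, 13, 13, 13, 13, 13, 13, 13, 13, 13, 13, 11, 13, 13],
 [12, 13, 13, 13, 13, 13, 13, 13, 13, 13, 13, 13, 12, 13],
 [13, 13, 13, 13, 13, 13, 13, 13, 13, 13, 13, 13, 13, 13]]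

/-- Table of meets. -/
def meetT : List (List ℕ) := [
 [0, 0, 0, 0, 0, 0, 0, 0, 0, 0, 0, 0, 0, 0],
 [0, 1, 0, 0, 0, 1, 0, 1, 0, 0, 0, 0, 0, 1],
 [0, 0, 2, 0, 0, 2, 0, 0, 2, 0, 0, 0, 0, 2],
 [0, 0, 0, 3, 0, 3, 0, 0, 0, 3, 0, 0, 0, 3],
 [0, 0, 0, 0, 4, 4, 0, 0, 0, 0, 4, 0, 0, 4],
 [0, 1, 2, 3, 4, 5, 0, 1, 2, 3, 4, 0, 0, 5],
 [0, 0, 0, 0, 0, 0, 6, 6, 6, 6, 6, 0, 0, 6],
 [0, 1, 0, 0, 0, 1, 6, 7, 6, 6, 6, 0, 0, 7],
 [0, 0, 2, 0, 0, 2, 6, 6, 8, 6, 6, 0, 0, 8],
 [0, 0, 0, 3, 0, 3, 6, 6, 6, 9, 6, 0, 0, 9],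
 [0, 0, 0, 0, 4, 4, 6, 6, 6, 6, 10, 0, 0, 10],
 [0, 0, 0, 0, 0, 0, 0, 0, 0, 0, 0, 11, 0, 11],
 [0, 0, 0, 0, 0, 0, 0, 0, 0, 0, 0, 0, 12, 12],
 [0, 1, 2, 3, 4, 5, 6, 7, 8, 9, 10, 11, 12, 13]]

/-- Table of orthocomplements. -/
def orthoT : List ℕ := [13, 8, 7, 10, 9, 6, 5, 2, 1, 4, 3, 12, 11, 0]

def join (a b : Fin 14) : Fin 14 := Fin.ofNat 14 ((joinT.getD a.val []).getD b.val 0)

def meet (a b : Fin 14) : Fin 14 := Fin.ofNat 14 ((meetT.getD a.val []).getD b.val 0)

def orth (a : Fin 14) : Fin 14 := Fin.ofNat 14 (orthoT.getD a.val 0)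

theorem join_comm' : ∀ a b : Fin 14, join a b = join b a := by decide

theorem meet_comm' : ∀ a b : Fin 14, meet a b = meet b a := by decide

theorem join_assoc' : ∀ a b c : Fin 14, join (join a b) c = join a (join b c) := by decide +kernel

theorem meet_assoc' : ∀ a b c : Fin 14, meet (meet a b) c = meet a (meet b c) := by decide +kernel

theorem join_meet_self' : ∀ a b : Fin 14, join a (meet a b) = a := by decide

theorem meet_join_self' : ∀ a b : Fin 14, meet a (join a b) = a := by decide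

instance : Max H := ⟨fun a b => ⟨join a.val b.val⟩⟩

instance : Min H := ⟨fun a b => ⟨meet a.val b.val⟩⟩

instance : Lattice H := Lattice.mk'
  (fun a b => congrArg H.mk (join_comm' a.val b.val))
  (fun a b c => congrArg H.mk (join_assoc' a.val b.val c.val))
  (fun a b => congrArg H.mk (meet_comm' a.val b.val))
  (fun a b c => congrArg H.mk (meet_assoc' a.val b.val c.val))
  (fun a b => congrArg H.mk (join_meet_self' a.val b.val))
  (fun a b => congrArg H.mk (meet_join_self' a.val b.val))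

theorem le_iff (a b : H) : a ≤ b ↔ join a.val b.val = b.val := by
  rw [← sup_eq_right]
  constructor
  · intro h; exact congrArg H.val h
  · intro h; exact congrArg H.mk h

instance : BoundedOrder H where
  bot := ⟨0⟩
  bot_le a := (le_iff _ _).2 ((by decide : ∀ a : Fin 14, join 0 a = a) a.val)
  top := ⟨13⟩
  le_top a := (le_iff _ _).2 ((by decide : ∀ a : Fin 14, join a 13 = 13) a.val)

instance : Ortholattice H where
  ortho a := ⟨orth a.val⟩
  ortho_ortho a := congrArg H.mk ((by decide : ∀ a : Fin 14, orth (orth a) = a) a.val)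
  ortho_anti a b h := (le_iff _ _).2
    ((by decide : ∀ a b : Fin 14, join a b = b → join (orth b) (orth a) = orth a)
      a.val b.val ((le_iff _ _).1 h))
  inf_ortho a := congrArg H.mk ((by decide : ∀ a : Fin 14, meet a (orth a) = 0) a.val)
  sup_ortho a := congrArg H.mk ((by decide : ∀ a : Fin 14, join a (orth a) = 13) a.val)

theorem finite : Finite H :=
  Finite.of_injective H.val (fun a b h => by cases a; cases b; cases h; rfl)

/-- The assignment at which the identity fails. -/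
def v : Fin 4 → H
  | 0 => ⟨5⟩
  | 1 => ⟨1⟩
  | 2 => ⟨3⟩
  | 3 => ⟨11⟩

theorem fails : lhs.eval v ≠ rhs.eval v := by
  intro h
  have h1 : (lhs.eval v).val = 5 := by decide
  have h2 : (rhs.eval v).val = 0 := by decide
  rw [h, h2] at h1
  exact absurd h1 (by decide)

end H

/-- The identity `comm(p,x,y) ∧ (p' ∨ z) = comm(p,x,y) ∧ z` holds in `Bip([n])` for every `n`
(indeed in `Bip(E)` for every set `E`), and it is nontrivial: it fails in some ortholattice. -/
theorem result :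
    (∀ (n : ℕ) (v : Fin 4 → Bip (Fin n)), lhs.eval v = rhs.eval v) ∧
    (∀ (E : Type) (v : Fin 4 → Bip E), lhs.eval v = rhs.eval v) ∧
    (∃ (L : Type) (_ : Ortholattice L) (_ : Finite L) (v : Fin 4 → L),
      lhs.eval v ≠ rhs.eval v) :=
  ⟨fun _ v => Bip.identity (v 0) (v 1) (v 2) (v 3),
    fun _ v => Bip.identity (v 0) (v 1) (v 2) (v 3), H, inferInstance, H.finite, H.v, H.fails⟩

end Pool.H21.MV.OrthoIdentity
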