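import Mathlib

/-!
Selectively (a) families and selectively Delta sets: definitions of the statement
-/

set_option autoImplicit false

open Set Filter Cardinal

namespace Pool.H21.MV.SelectivelyDelta

/-- `A` is an almost disjoint family: its members are infinite sets of natural numbers, and two
distinct members have finite intersection. -/
def AD (A : Set (Set ℕ)) : Prop :=
  (∀ a ∈ A, a.Infinite) ∧ ∀ a ∈ A, ∀ b ∈ A, a ≠ b → (a ∩ b).Finite

/-- The underlying set of the space `Ψ(A)`: the natural numbers together with the members of `A`. -/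
def Psi (A : Set (Set ℕ)) : Type := ℕ ⊕ A

/-- The topology of `Ψ(A)`: a set is open if for every member `a` of `A` in it, it contains all but
finitely many elements of `a`. So natural numbers are isolated and the basic neighbourhoods of `a`
are `{a} ∪ (a \ F)` with `F` finite. -/
instance psiTop (A : Set (Set ℕ)) : TopologicalSpace (Psi A) where
  IsOpen U := ∀ a : A, (Sum.inr a : ℕ ⊕ A) ∈ U → ((a : Set ℕ) \ {n | (Sum.inl n : ℕ ⊕ A) ∈ U}).Finite
  isOpen_univ := fun a _ => by
    refine (Set.finite_empty).subset fun n hn => ?_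
    exact hn.2 (Set.mem_univ _)
  isOpen_inter := fun U V hU hV a ha => by
    refine ((hU a ha.1).union (hV a ha.2)).subset fun n hn => ?_
    by_cases h : (Sum.inl n : ℕ ⊕ A) ∈ U
    · exact Or.inr ⟨hn.1, fun h' => hn.2 ⟨h, h'⟩⟩
    · exact Or.inl ⟨hn.1, h⟩
  isOpen_sUnion := fun S hS a ha => by
    obtain ⟨U, hU, haU⟩ := ha
    exact (hS U hU a haU).subset fun n hn => ⟨hn.1, fun h => hn.2 ⟨U, hU, h⟩⟩

/-- A space is selectively (a): for every sequence of open covers and every dense set `D` there are
closed discrete `S n ⊆ D` such that the stars `St(S n, 𝓤 n)` cover the space. -/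
def SelectivelyA (X : Type) [TopologicalSpace X] : Prop :=
  ∀ U : ℕ → Set (Set X), (∀ n, (∀ V ∈ U n, IsOpen V) ∧ ⋃₀ U n = Set.univ) → ∀ D : Set X, Dense D →
    ∃ S : ℕ → Set X, (∀ n, S n ⊆ D ∧ IsClosed (S n) ∧ DiscreteTopology (S n)) ∧
      ∀ x, ∃ n, ∃ V ∈ U n, (V ∩ S n).Nonempty ∧ x ∈ V

/-- The cardinal `𝔳_ssa`: the least `κ` such that no almost disjoint family of size `κ` is
selectively (a). -/
noncomputable def vssa : Cardinal.{0} :=
  sInf {κ | ∀ A : Set (Set ℕ), AD A → #A = κ → ¬ SelectivelyA (Psi A)}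

/-- The dominating number `𝔡`. -/
noncomputable def dom : Cardinal.{0} :=
  sInf {κ | ∃ F : Set (ℕ → ℕ), #F = κ ∧ ∀ g : ℕ → ℕ, ∃ f ∈ F, ∀ᶠ n in atTop, g n ≤ f n}

/-- A set of reals (subset of the Cantor space) is selectively Delta: for every sequence
`(D n m)_m`, `n = 0, 1, ...`, of decreasing sequences of subsets of `X` with empty intersection there
are sequences `(U n m)_m` of relatively open subsets, each with empty intersection, such that every
point `x` has an `n` for which `x ∈ D n m` implies `x ∈ U n m` for all `m`.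
(With a single `n` this says that `X` is a Delta-set.) -/
def SelDelta (X : Set (ℕ → Bool)) : Prop :=
  ∀ D : ℕ → ℕ → Set X, (∀ n, Antitone (D n)) → (∀ n, ⋂ m, D n m = ∅) →
    ∃ U : ℕ → ℕ → Set X, (∀ n m, IsOpen (U n m)) ∧ (∀ n, ⋂ m, U n m = ∅) ∧
      ∀ x, ∃ n, ∀ m, x ∈ D n m → x ∈ U n m

end Pool.H21.MV.SelectivelyDelta
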