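import Mathlib
import Pool.Agent.H21.MV.SelectivelyDeltaDefs

/-!
Selectively (a) families and selectively Delta sets: the proof
-/

set_option autoImplicit false

open Set Filter Cardinal

namespace Pool.H21.MV.SelectivelyDelta

section basics

variable {A : Set (Set ℕ)}

theorem isOpen_psi {U : Set (Psi A)} : IsOpen U ↔
    ∀ a : A, (Sum.inr a : ℕ ⊕ A) ∈ U → ((a : Set ℕ) \ {n | (Sum.inl n : ℕ ⊕ A) ∈ U}).Finite :=
  Iff.rfl

/-- the point `n` -/
def pt (A : Set (Set ℕ)) (n : ℕ) : Psi A := (Sum.inl n : ℕ ⊕ A)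

/-- the point `a` -/
def ld (a : A) : Psi A := (Sum.inr a : ℕ ⊕ A)

theorem pt_inj {n m : ℕ} (h : pt A n = pt A m) : n = m := Sum.inl_injective h

theorem ld_ne (a : A) (n : ℕ) : ld a ≠ pt A n := Sum.inr_ne_inl

theorem ld_inj {a b : A} (h : ld a = ld b) : a = b := Sum.inr_injective h

theorem isOpen_psi' {U : Set (Psi A)} : IsOpen U ↔
    ∀ a : A, ld a ∈ U → ((a : Set ℕ) \ {n | pt A n ∈ U}).Finite :=
  Iff.rfl

theorem cases_psi (p : Psi A) : (∃ n, p = pt A n) ∨ ∃ a, p = ld a := by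
  rcases p with n | a
  · exact Or.inl ⟨n, rfl⟩
  · exact Or.inr ⟨a, rfl⟩

theorem isOpen_pt (n : ℕ) : IsOpen ({pt A n} : Set (Psi A)) := by
  rw [isOpen_psi']
  intro a ha
  exact absurd ha (ld_ne a n)

theorem isOpen_of_pts {S : Set (Psi A)} (h : ∀ a, ld a ∉ S) : IsOpen S := by
  rw [isOpen_psi']
  intro a ha
  exact absurd ha (h a)

theorem isClosed_of_pts {S : Set (Psi A)} (_h : ∀ a, ld a ∉ S)
    (hf : ∀ a : A, ((a : Set ℕ) ∩ {n | pt A n ∈ S}).Finite) : IsClosed S := by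
  rw [← isOpen_compl_iff, isOpen_psi']
  intro a _
  refine (hf a).subset fun n hn => ⟨hn.1, ?_⟩
  by_contra h
  exact hn.2 h

theorem discrete_of_pts {S : Set (Psi A)} (h : ∀ a, ld a ∉ S) : DiscreteTopology S := by
  rw [discreteTopology_iff_forall_isOpen]
  intro T
  refine ⟨Subtype.val '' T, isOpen_of_pts ?_, ?_⟩
  · rintro a ⟨x, _, hx⟩
    exact h a (hx ▸ x.2)
  · exact Set.preimage_image_eq _ Subtype.val_injective

theorem dense_pts (hA : AD A) : Dense (Set.range (pt A)) := by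
  rw [dense_iff_inter_open]
  rintro U hU ⟨p, hp⟩
  rcases cases_psi p with ⟨n, rfl⟩ | ⟨a, rfl⟩
  · exact ⟨_, hp, n, rfl⟩
  · have h := (isOpen_psi'.1 hU) a hp
    obtain ⟨n, hn, hn'⟩ := ((hA.1 a a.2).sdiff h).nonempty
    refine ⟨pt A n, ?_, n, rfl⟩
    by_contra hc
    exact hn' ⟨hn, hc⟩

theorem pt_mem_of_dense {D : Set (Psi A)} (hD : Dense D) (n : ℕ) : pt A n ∈ D := by
  obtain ⟨x, hx, hxD⟩ := dense_iff_inter_open.1 hD {pt A n} (isOpen_pt n) ⟨_, rfl⟩
  rw [Set.mem_singleton_iff] at hx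
  exact hx ▸ hxD

end basics

/-- for a decreasing sequence with empty intersection, a bound for the indices of the sets containing
`x` -/
theorem exists_bound {X : Type*} {D : ℕ → Set X} (hD : Antitone D) (h0 : ⋂ m, D m = ∅) (x : X) :
    ∃ k, ∀ m, x ∈ D m → m < k := by
  have : x ∉ ⋂ m, D m := by rw [h0]; exact Set.notMem_empty x
  rw [Set.mem_iInter, not_forall] at this
  obtain ⟨k, hk⟩ := this
  refine ⟨k, fun m hm => ?_⟩
  by_contra hlt
  exact hk (hD (not_lt.1 hlt) hm)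

/-- characteristic function -/
noncomputable def chi (a : Set ℕ) : ℕ → Bool := by
  classical
  exact fun n => decide (n ∈ a)

theorem chi_eq {a : Set ℕ} {n : ℕ} : chi a n = true ↔ n ∈ a := by
  unfold chi
  simp

theorem chi_inj : Function.Injective chi := by
  intro a b h
  ext n
  rw [← chi_eq, ← chi_eq, h]

theorem delta_of_selA {A : Set (Set ℕ)} (hA : AD A) (h : SelectivelyA (Psi A)) :
    SelDelta (chi '' A) := by
  intro D hD h0
  choose f hf using fun n (x : (chi '' A)) => exists_bound (hD n) (h0 n) x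
  -- the point of the set of reals given by `a`
  set X : A → (chi '' A) := fun a => ⟨chi a, a, a.2, rfl⟩ with hX
  -- the covers
  set N : ℕ → A → Set (Psi A) := fun n a => {ld a} ∪ (pt A '' {k | k ∈ (a : Set ℕ) ∧ f n (X a) ≤ k})
    with hN
  obtain ⟨S, hS, hcov⟩ := h (fun n => (Set.range (N n)) ∪ (Set.range fun k => ({pt A k} : Set (Psi A))))
    (fun n => by
      constructor
      · rintro V (⟨a, rfl⟩ | ⟨k, rfl⟩)
        · rw [isOpen_psi']
          intro b hb
          have hba : b = a := by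
            rcases hb with hb | ⟨k, _, hk⟩
            · exact ld_inj hb
            · exact absurd hk.symm (ld_ne b k)
          subst hba
          refine (Set.finite_Iio (f n (X b))).subset fun k hk => ?_
          by_contra hlt
          exact hk.2 (Or.inr ⟨k, ⟨hk.1, not_lt.1 hlt⟩, rfl⟩)
        · exact isOpen_pt k
      · rw [Set.eq_univ_iff_forall]
        intro p
        rcases cases_psi p with ⟨k, rfl⟩ | ⟨a, rfl⟩
        · exact ⟨{pt A k}, Or.inr ⟨k, rfl⟩, rfl⟩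
        · exact ⟨N n a, Or.inl ⟨a, rfl⟩, Or.inl rfl⟩) (Set.range (pt A)) (dense_pts hA)
  have hSld : ∀ n a, ld a ∉ S n := by
    intro n a ha
    obtain ⟨k, hk⟩ := (hS n).1 ha
    exact ld_ne a k hk.symm
  have hfin : ∀ n (a : A), ((a : Set ℕ) ∩ {k | pt A k ∈ S n}).Finite := by
    intro n a
    have h1 := (isOpen_psi'.1 (hS n).2.1.isOpen_compl) a (hSld n a)
    refine h1.subset fun k hk => ⟨hk.1, fun hc => hc hk.2⟩
  refine ⟨fun n m => {x | ∃ k, m ≤ k ∧ pt A k ∈ S n ∧ (x : ℕ → Bool) k = true}, fun n m => ?_,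
    fun n => ?_, fun x => ?_⟩
  · have : {x : (chi '' A) | ∃ k, m ≤ k ∧ pt A k ∈ S n ∧ (x : ℕ → Bool) k = true} =
        ⋃ k ∈ {k | m ≤ k ∧ pt A k ∈ S n}, {x : (chi '' A) | (x : ℕ → Bool) k = true} := by
      ext x
      simp [and_assoc]
    show IsOpen {x : (chi '' A) | ∃ k, m ≤ k ∧ pt A k ∈ S n ∧ (x : ℕ → Bool) k = true}
    rw [this]
    refine isOpen_biUnion fun k _ => ?_
    have hc : Continuous (fun x : (chi '' A) => (x : ℕ → Bool) k) :=
      (continuous_apply k).comp continuous_subtype_val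
    exact (isOpen_discrete ({true} : Set Bool)).preimage hc
  · rw [Set.eq_empty_iff_forall_notMem]
    rintro ⟨x, a, ha, rfl⟩ hx
    rw [Set.mem_iInter] at hx
    obtain ⟨M, hM⟩ := (hfin n ⟨a, ha⟩).bddAbove
    obtain ⟨k, hk, hk1, hk2⟩ := hx (M + 1)
    have := hM ⟨chi_eq.1 hk2, hk1⟩
    omega
  · obtain ⟨x, a, ha, rfl⟩ := x
    obtain ⟨n, V, hV, ⟨q, hqV, hqS⟩, hxV⟩ := hcov (ld ⟨a, ha⟩)
    refine ⟨n, fun m hm => ?_⟩
    rcases hV with ⟨b, rfl⟩ | ⟨k, rfl⟩
    · have hba : b = ⟨a, ha⟩ := by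
        rcases hxV with hb | ⟨k, _, hk⟩
        · exact (ld_inj hb).symm
        · exact absurd hk.symm (ld_ne _ k)
      subst hba
      rcases hqV with hq | ⟨k, hk, rfl⟩
      · exact absurd (hq ▸ hqS) (hSld n _)
      · refine ⟨k, ?_, hqS, chi_eq.2 hk.1⟩
        have h1 := hf n (X ⟨a, ha⟩) m hm
        exact (h1.le).trans hk.2
    · exact absurd hxV (ld_ne _ k)

/-- code of the initial segment of length `k` of `x` -/
def code (x : ℕ → Bool) (k : ℕ) : ℕ := Nat.pair k (Encodable.encode ((List.range k).map x))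

theorem le_code (x : ℕ → Bool) (k : ℕ) : k ≤ code x k := Nat.left_le_pair _ _

theorem code_inj {x y : ℕ → Bool} {k l : ℕ} (h : code x k = code y l) :
    k = l ∧ ∀ i < k, x i = y i := by
  unfold code at h
  rw [Nat.pair_eq_pair] at h
  obtain ⟨rfl, h2⟩ := h
  have h3 := Encodable.encode_injective h2
  refine ⟨rfl, fun i hi => ?_⟩
  have h4 := List.map_inj_left.1 h3 i (List.mem_range.2 hi)
  exact h4

theorem code_eq {x y : ℕ → Bool} {k : ℕ} (h : ∀ i < k, x i = y i) : code x k = code y k := by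
  unfold code
  congr 2
  exact List.map_congr_left fun i hi => h i (List.mem_range.1 hi)

/-- branch -/
def br (x : ℕ → Bool) : Set ℕ := Set.range (code x)

theorem code_injective (x : ℕ → Bool) : Function.Injective (code x) := fun _ _ h => (code_inj h).1

theorem br_infinite (x : ℕ → Bool) : (br x).Infinite := Set.infinite_range_of_injective (code_injective x)

theorem br_inter {x y : ℕ → Bool} (h : x ≠ y) : (br x ∩ br y).Finite := by
  obtain ⟨i, hi⟩ := Function.ne_iff.1 h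
  refine ((Set.finite_Iic i).image (code x)).subset ?_
  rintro t ⟨⟨k, rfl⟩, ⟨l, hl⟩⟩
  refine ⟨k, ?_, rfl⟩
  by_contra hk
  exact hi ((code_inj hl.symm).2 i (not_le.1 hk))

theorem br_inj : Function.Injective br := by
  intro x y h
  by_contra hne
  have := br_inter hne
  rw [h, Set.inter_self] at this
  exact br_infinite y this

theorem AD_br (X : Set (ℕ → Bool)) : AD (br '' X) := by
  constructor
  · rintro _ ⟨x, _, rfl⟩
    exact br_infinite x
  · rintro _ ⟨x, _, rfl⟩ _ ⟨y, _, rfl⟩ h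
    exact br_inter fun hxy => h (by rw [hxy])

/-- an open subset of a set of reals contains, with `x`, a cylinder around `x` -/
theorem exists_cyl {X : Set (ℕ → Bool)} {U : Set X} (hU : IsOpen U) {x : X} (hx : x ∈ U) (m : ℕ) :
    ∃ k, m ≤ k ∧ ∀ y : X, (∀ i < k, (x : ℕ → Bool) i = (y : ℕ → Bool) i) → y ∈ U := by
  obtain ⟨W, hW, rfl⟩ := isOpen_induced_iff.1 hU
  obtain ⟨I, u, hu, hsub⟩ := isOpen_pi_iff.1 hW x hx
  refine ⟨max m (I.sup id + 1), le_max_left _ _, fun y hy => hsub ?_⟩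
  rw [Set.mem_pi]
  intro i hi
  have h1 : i ≤ I.sup id := Finset.le_sup (f := id) hi
  rw [← hy i (lt_of_lt_of_le (Nat.lt_succ_of_le h1) (le_max_right _ _))]
  exact (hu i hi).2

theorem selA_of_delta {X : Set (ℕ → Bool)} (hX : SelDelta X) :
    SelectivelyA (Psi (br '' X)) := by
  intro 𝓤 h𝓤 Dn hDn
  -- the point of the space given by `x`
  set a : X → (br '' X) := fun x => ⟨br x, x, x.2, rfl⟩ with ha
  have hcov : ∀ n (x : X), ∃ f : ℕ, ∃ V ∈ 𝓤 n, ld (a x) ∈ V ∧ ∀ k, f ≤ k → pt _ (code x k) ∈ V := by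
    intro n x
    have h1 : ld (a x) ∈ ⋃₀ 𝓤 n := by rw [(h𝓤 n).2]; exact Set.mem_univ _
    obtain ⟨V, hV, hxV⟩ := h1
    have h2 := (isOpen_psi'.1 ((h𝓤 n).1 V hV)) (a x) hxV
    have h3 : {k | pt _ (code (x : ℕ → Bool) k) ∉ V}.Finite := by
      refine Set.Finite.of_finite_image (f := code x) (h2.subset ?_) (code_injective x).injOn
      rintro _ ⟨k, hk, rfl⟩
      exact ⟨⟨k, rfl⟩, hk⟩
    obtain ⟨M, hM⟩ := h3.bddAbove
    refine ⟨M + 1, V, hV, hxV, fun k hk => ?_⟩
    by_contra hc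
    have := hM hc
    omega
  choose f V hV hxV hfV using hcov
  obtain ⟨U, hU, hU0, hUc⟩ := hX (fun n m => {x | m ≤ f n x})
    (fun n m m' hmm x hx => le_trans hmm hx)
    (fun n => by
      rw [Set.eq_empty_iff_forall_notMem]
      intro x hx
      rw [Set.mem_iInter] at hx
      have := hx (f n x + 1)
      simp at this)
  -- decreasing version
  set U' : ℕ → ℕ → Set X := fun n m => ⋂ j ∈ Set.Iic m, U n j with hU'
  have hU'o : ∀ n m, IsOpen (U' n m) := fun n m => (Set.finite_Iic m).isOpen_biInter fun j _ => hU n j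
  have hU'a : ∀ n, Antitone (U' n) := by
    intro n m m' hmm
    exact Set.biInter_subset_biInter_left (Set.Iic_subset_Iic.2 hmm)
  have hU'0 : ∀ n, ⋂ m, U' n m = ∅ := by
    intro n
    rw [Set.eq_empty_iff_forall_notMem]
    intro x hx
    have h1 : x ∈ ⋂ m, U n m := by
      rw [Set.mem_iInter] at hx ⊢
      intro m
      have := hx m
      simp only [hU', Set.mem_iInter] at this
      exact this m (Set.mem_Iic.2 le_rfl)
    rw [hU0 n] at h1
    exact h1
  have hU'c : ∀ x, ∃ n, x ∈ U' n (f n x) := by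
    intro x
    obtain ⟨n, hn⟩ := hUc x
    refine ⟨n, ?_⟩
    simp only [hU', Set.mem_iInter]
    intro j hj
    exact hn j hj
  choose g hg using fun n x => exists_bound (hU'a n) (hU'0 n) x
  -- the set of codes
  set cyl : ℕ → ℕ → X → ℕ → Prop := fun n m x k =>
    m ≤ k ∧ ∀ y : X, (∀ i < k, (x : ℕ → Bool) i = (y : ℕ → Bool) i) → y ∈ U' n m with hcyl
  set Q : ℕ → Set ℕ := fun n => {t | ∃ m, ∃ x : X, x ∈ U' n m ∧ ∃ k, cyl n m x k ∧
    (∀ k' < k, ¬ cyl n m x k') ∧ t = code x k} with hQ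
  have key : ∀ n (y : X), (br y ∩ Q n).Finite := by
    intro n y
    have h1 : ∀ m, ∀ k k', cyl n m y k → (∀ l < k, ¬ cyl n m y l) → cyl n m y k' →
        (∀ l < k', ¬ cyl n m y l) → k = k' := by
      intro m k k' h1 h2 h3 h4
      rcases lt_trichotomy k k' with h | h | h
      · exact absurd h1 (h4 k h)
      · exact h
      · exact absurd h3 (h2 k' h)
    -- for each `m` at most one point
    have h2 : (br y ∩ Q n) ⊆ ⋃ m ∈ Set.Iio (g n y),
        {t | ∃ k, cyl n m y k ∧ (∀ l < k, ¬ cyl n m y l) ∧ t = code y k} := by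
      rintro t ⟨⟨l, rfl⟩, m, x, hx, k, hk, hk', ht⟩
      obtain ⟨rfl, hxy⟩ := code_inj ht
      have hyU : y ∈ U' n m := hk.2 y fun i hi => (hxy i hi).symm
      rw [Set.mem_iUnion₂]
      refine ⟨m, hg n y m hyU, l, ⟨hk.1, fun z hz => hk.2 z fun i hi => ?_⟩, fun l' hl' hc => ?_, rfl⟩
      · rw [← hxy i hi]; exact hz i hi
      · refine hk' l' hl' ⟨hc.1, fun z hz => hc.2 z fun i hi => ?_⟩
        rw [hxy i (hi.trans hl')]; exact hz i hi
    refine ((Set.finite_Iio (g n y)).biUnion fun m _ => ?_).subset h2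
    refine Set.Subsingleton.finite ?_
    rintro t ⟨k, hk, hk', rfl⟩ t' ⟨l, hl, hl', rfl⟩
    rw [h1 m k l hk hk' hl hl']
  refine ⟨fun n => pt _ '' (Q n ∪ Set.Iic n), fun n => ⟨?_, ?_, ?_⟩, fun p => ?_⟩
  · rintro _ ⟨t, _, rfl⟩
    exact pt_mem_of_dense hDn t
  · refine isClosed_of_pts ?_ ?_
    · rintro b ⟨t, _, ht⟩
      exact ld_ne b t ht.symm
    · rintro ⟨_, y, hy, rfl⟩
      refine ((key n ⟨y, hy⟩).union (Set.finite_Iic n)).subset ?_
      rintro t ⟨ht, s, hs, hst⟩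
      have := pt_inj hst
      subst this
      rcases hs with hs | hs
      · exact Or.inl ⟨ht, hs⟩
      · exact Or.inr hs
  · refine discrete_of_pts ?_
    rintro b ⟨t, _, ht⟩
    exact ld_ne b t ht.symm
  · rcases cases_psi p with ⟨k, rfl⟩ | ⟨⟨_, x, hx, rfl⟩, rfl⟩
    · have h1 : pt _ k ∈ ⋃₀ 𝓤 k := by rw [(h𝓤 k).2]; exact Set.mem_univ _
      obtain ⟨W, hW, hkW⟩ := h1
      exact ⟨k, W, hW, ⟨pt _ k, hkW, k, Or.inr (Set.mem_Iic.2 le_rfl), rfl⟩, hkW⟩
    · obtain ⟨n, hn⟩ := hU'c ⟨x, hx⟩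
      set m := f n ⟨x, hx⟩ with hm
      have hex : ∃ k, cyl n m ⟨x, hx⟩ k := exists_cyl (hU'o n m) hn m
      classical
      refine ⟨n, V n ⟨x, hx⟩, hV n _, ⟨pt _ (code x (Nat.find hex)), ?_, _, Or.inl ?_, rfl⟩, hxV n _⟩
      · exact hfV n ⟨x, hx⟩ _ (Nat.find_spec hex).1
      · exact ⟨m, ⟨x, hx⟩, hn, Nat.find hex, Nat.find_spec hex, fun k' hk' => Nat.find_min hex hk', rfl⟩

/-- sizes of selectively (a) families are the sizes of selectively Delta sets of reals -/
theorem sizes (κ : Cardinal.{0}) :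
    (∃ A : Set (Set ℕ), AD A ∧ #A = κ ∧ SelectivelyA (Psi A)) ↔
      ∃ X : Set (ℕ → Bool), #X = κ ∧ SelDelta X := by
  constructor
  · rintro ⟨A, hA, hκ, hs⟩
    exact ⟨chi '' A, by rw [mk_image_eq chi_inj, hκ], delta_of_selA hA hs⟩
  · rintro ⟨X, hκ, hs⟩
    exact ⟨br '' X, AD_br X, by rw [mk_image_eq br_inj, hκ], selA_of_delta hs⟩

/-- sets of size below `𝔡` are selectively Delta -/
theorem delta_of_lt {X : Set (ℕ → Bool)} (h : #X < dom) : SelDelta X := by
  intro D hD h0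
  choose f hf using fun n x => exists_bound (hD n) (h0 n) x
  set F : Set (ℕ → ℕ) := Set.range fun x : X => fun n => f n x with hF
  have hle : #F ≤ #X := mk_range_le
  have hnot : ¬ ∀ g : ℕ → ℕ, ∃ φ ∈ F, ∀ᶠ n in atTop, g n ≤ φ n := by
    intro hdom
    have h1 : dom ≤ #F := csInf_le' ⟨F, rfl, hdom⟩
    exact absurd (h1.trans hle) (not_le.2 h)
  push Not at hnot
  obtain ⟨g, hg⟩ := hnot
  refine ⟨fun n m => {x | m ≤ g n}, fun n m => ?_, fun n => ?_, fun x => ?_⟩
  · by_cases hmn : m ≤ g n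
    · simp [hmn]
    · simp [hmn]
  · rw [Set.eq_empty_iff_forall_notMem]
    intro x hx
    rw [Set.mem_iInter] at hx
    have : g n + 1 ≤ g n := hx (g n + 1)
    omega
  · have h1 := hg (fun n => f n x) ⟨x, rfl⟩
    obtain ⟨n, hn⟩ := h1.exists
    exact ⟨n, fun m hm => (hf n x m hm).le.trans hn.le⟩

theorem dom_le : dom ≤ #(ℕ → Bool) := by
  have h1 : dom ≤ #(Set.univ : Set (ℕ → ℕ)) :=
    csInf_le' ⟨Set.univ, rfl, fun g => ⟨g, Set.mem_univ _, Eventually.of_forall fun n => le_rfl⟩⟩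
  rw [mk_univ] at h1
  refine h1.trans (le_of_eq ?_)
  simp [mk_pi, power_self_eq]

/-- a Q-set (all its subsets are relative `G_δ` sets) is selectively Delta -/
theorem delta_of_qset {X : Set (ℕ → Bool)} (h : ∀ S : Set X, IsGδ S) : SelDelta X := by
  intro D hD h0
  choose G hG hDG using fun n m => isGδ_iff_eq_iInter_nat.1 (h (D n m))
  refine ⟨fun n m => ⋂ i ∈ Set.Iic m, ⋂ j ∈ Set.Iic m, G n i j, fun n m => ?_, fun n => ?_,
    fun x => ⟨0, fun m hm => ?_⟩⟩
  · exact (Set.finite_Iic m).isOpen_biInter fun i _ =>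
      (Set.finite_Iic m).isOpen_biInter fun j _ => hG n i j
  · rw [Set.eq_empty_iff_forall_notMem]
    intro x hx
    have h1 : x ∈ ⋂ m, D n m := by
      rw [Set.mem_iInter]
      intro i
      rw [hDG n i, Set.mem_iInter]
      intro j
      rw [Set.mem_iInter] at hx
      have h2 := hx (max i j)
      rw [Set.mem_iInter₂] at h2
      have h3 := h2 i (Set.mem_Iic.2 (le_max_left _ _))
      rw [Set.mem_iInter₂] at h3
      exact h3 j (Set.mem_Iic.2 (le_max_right _ _))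
    rw [h0 n] at h1
    exact h1
  · rw [Set.mem_iInter₂]
    intro i hi
    rw [Set.mem_iInter₂]
    intro j _
    have h1 : x ∈ D 0 i := hD 0 (Set.mem_Iic.1 hi) hm
    rw [hDG 0 i, Set.mem_iInter] at h1
    exact h1 j

theorem dom_lt_iff : dom < vssa ↔ ∃ X : Set (ℕ → Bool), #X = dom ∧ SelDelta X := by
  have hmem : ∀ κ : Cardinal.{0}, κ ∈ {κ : Cardinal.{0} | ∀ A : Set (Set ℕ), AD A → #A = κ →
      ¬ SelectivelyA (Psi A)} ↔ ¬ ∃ X : Set (ℕ → Bool), #X = κ ∧ SelDelta X := by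
    intro κ
    rw [← sizes κ]
    simp only [Set.mem_ofPred_eq, not_exists, not_and]
  constructor
  · intro h
    by_contra hc
    exact absurd (csInf_le' ((hmem dom).2 hc)) (not_le.2 h)
  · intro h
    have hne : {κ : Cardinal.{0} | ∀ A : Set (Set ℕ), AD A → #A = κ →
        ¬ SelectivelyA (Psi A)}.Nonempty := by
      refine ⟨Order.succ #(Set ℕ), fun A _ hA _ => ?_⟩
      have h1 : #A ≤ #(Set ℕ) := mk_set_le A
      rw [hA] at h1
      exact absurd h1 (not_le.2 (Order.lt_succ _))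
    have h1 := (hmem _).1 (csInf_mem hne)
    by_contra hlt
    rcases (not_lt.1 hlt).lt_or_eq with h2 | h2
    · obtain ⟨X, hX⟩ := le_mk_iff_exists_set.1 (h2.le.trans dom_le)
      exact h1 ⟨X, hX, delta_of_lt (by rw [hX]; exact h2)⟩
    · apply h1
      obtain ⟨X, hX, hs⟩ := h
      exact ⟨X, hX.trans h2.symm, hs⟩

/-- **Theorem.** For every cardinal `κ`, some almost disjoint family of size `κ` is selectively (a)
if and only if some set of reals of size `κ` is selectively Delta. Hence `𝔡 < 𝔳_ssa` if and only if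
there is a selectively Delta set of reals of size exactly `𝔡`; in particular `𝔡 < 𝔳_ssa` as soon as
there is a Q-set of reals of size `𝔡`. -/
theorem result :
    (∀ κ : Cardinal.{0}, (∃ A : Set (Set ℕ), AD A ∧ #A = κ ∧ SelectivelyA (Psi A)) ↔
      ∃ X : Set (ℕ → Bool), #X = κ ∧ SelDelta X) ∧
    (dom < vssa ↔ ∃ X : Set (ℕ → Bool), #X = dom ∧ SelDelta X) ∧
    ((∃ X : Set (ℕ → Bool), #X = dom ∧ ∀ S : Set X, IsGδ S) → dom < vssa) :=
  ⟨sizes, dom_lt_iff, fun ⟨X, hX, hQ⟩ => dom_lt_iff.2 ⟨X, hX, delta_of_qset hQ⟩⟩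

end Pool.H21.MV.SelectivelyDelta
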