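import Mathlib

/-!
Hand-in ThreeValues: the proof
-/

set_option autoImplicit false

open Finset

namespace Pool.H21.MV.ThreeValues

lemma abel (y z : ℕ → ℝ) (n : ℕ) :
    ∑ k ∈ range n, (y (k + 1) - y k) * (∑ m ∈ range (k + 1), z m)
      = ∑ a ∈ range n, z a * (y n - y a) := by
  induction n with
  | zero => simp
  | succ n ih =>
    rw [sum_range_succ, ih, sum_range_succ, sum_range_succ]
    have : ∑ a ∈ range n, z a * (y (n + 1) - y a)
        = ∑ a ∈ range n, z a * (y n - y a) + (y (n + 1) - y n) * ∑ a ∈ range n, z a := by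
      rw [mul_sum, ← sum_add_distrib]
      exact sum_congr rfl fun a _ => by ring
    rw [this]
    ring

/-- Bilinear form of the distance matrix of a sorted sequence. -/
lemma key (z w y : ℕ → ℝ) (n : ℕ) (hy : ∀ i j, i ≤ j → j ≤ n → y i ≤ y j) :
    ∑ a ∈ range (n + 1), ∑ b ∈ range (n + 1), z a * w b * |y a - y b|
      = ∑ k ∈ range n, (y (k + 1) - y k) *
          ((∑ m ∈ range (k + 1), z m) * ((∑ m ∈ range (n + 1), w m) - ∑ m ∈ range (k + 1), w m)
          + (∑ m ∈ range (k + 1), w m) *
            ((∑ m ∈ range (n + 1), z m) - ∑ m ∈ range (k + 1), z m)) := by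
  induction n with
  | zero => simp
  | succ n ih =>
    have ih' := ih (fun i j hij hj => hy i j hij (by omega))
    rw [sum_range_succ]
    simp_rw [sum_range_succ _ (n + 1)]
    rw [sum_add_distrib, ih']
    have h1 : ∀ a ∈ range (n + 1), z a * w (n + 1) * |y a - y (n + 1)|
        = w (n + 1) * (z a * (y (n + 1) - y a)) := by
      intro a ha
      have : y a ≤ y (n + 1) := hy a (n + 1) (by have := mem_range.1 ha; omega) le_rfl
      rw [abs_of_nonpos (by linarith)]
      ring
    have h2 : ∀ a ∈ range (n + 1), z (n + 1) * w a * |y (n + 1) - y a|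
        = z (n + 1) * (w a * (y (n + 1) - y a)) := by
      intro a ha
      have : y a ≤ y (n + 1) := hy a (n + 1) (by have := mem_range.1 ha; omega) le_rfl
      rw [abs_of_nonneg (by linarith)]
      ring
    rw [sum_congr rfl h1, sum_congr rfl h2, ← mul_sum, ← mul_sum, ← abel y z (n + 1),
      ← abel y w (n + 1)]
    rw [sum_range_succ (fun k => (y (k + 1) - y k) * ∑ m ∈ range (k + 1), z m) n]
    rw [sum_range_succ (fun k => (y (k + 1) - y k) * ∑ m ∈ range (k + 1), w m) n]
    rw [sum_range_succ (fun k => (y (k + 1) - y k) *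
          ((∑ m ∈ range (k + 1), z m) * ((∑ m ∈ range (n + 1), w m + w (n + 1))
            - ∑ m ∈ range (k + 1), w m)
          + (∑ m ∈ range (k + 1), w m) *
            ((∑ m ∈ range (n + 1), z m + z (n + 1)) - ∑ m ∈ range (k + 1), z m))) n]
    have h3 : ∑ k ∈ range n, (y (k + 1) - y k) *
          ((∑ m ∈ range (k + 1), z m) * ((∑ m ∈ range (n + 1), w m + w (n + 1))
            - ∑ m ∈ range (k + 1), w m)
          + (∑ m ∈ range (k + 1), w m) *
            ((∑ m ∈ range (n + 1), z m + z (n + 1)) - ∑ m ∈ range (k + 1), z m))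
        = ∑ k ∈ range n, (y (k + 1) - y k) *
          ((∑ m ∈ range (k + 1), z m) * ((∑ m ∈ range (n + 1), w m) - ∑ m ∈ range (k + 1), w m)
          + (∑ m ∈ range (k + 1), w m) *
            ((∑ m ∈ range (n + 1), z m) - ∑ m ∈ range (k + 1), z m))
          + w (n + 1) * ∑ k ∈ range n, (y (k + 1) - y k) * ∑ m ∈ range (k + 1), z m
          + z (n + 1) * ∑ k ∈ range n, (y (k + 1) - y k) * ∑ m ∈ range (k + 1), w m := by
      rw [mul_sum, mul_sum, ← sum_add_distrib, ← sum_add_distrib]
      exact sum_congr rfl fun a _ => by ring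
    rw [h3]
    simp only [sub_self, abs_zero, mul_zero, add_zero]
    ring

section Family

variable {n : ℕ}

/-- The `k`-th smallest value of `u` (constant for `k ≥ n`). -/
noncomputable def srt (u : Fin (n + 1) → ℝ) (k : ℕ) : ℝ := u (Tuple.sort u ⟨min k n, by omega⟩)

/-- The sum of `z` over the `k + 1` points with the smallest values of `u`. -/
noncomputable def W (u : Fin (n + 1) → ℝ) (k : ℕ) (z : Fin (n + 1) → ℝ) : ℝ :=
  ∑ m ∈ range (k + 1), z (Tuple.sort u ⟨min m n, by omega⟩)

lemma srt_mono (u : Fin (n + 1) → ℝ) : Monotone (srt u) := by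
  intro i j hij
  apply Tuple.monotone_sort u
  simp only [Fin.mk_le_mk]
  omega

lemma W_full (u z : Fin (n + 1) → ℝ) : W u n z = ∑ a, z a := by
  unfold W
  rw [sum_range, ← Equiv.sum_comp (Tuple.sort u) z]
  refine sum_congr rfl fun a _ => ?_
  congr 2
  apply Fin.ext
  simp only
  have := a.2
  omega

lemma form (u z w : Fin (n + 1) → ℝ) (hz : ∑ a, z a = 0) (hw : ∑ a, w a = 0) :
    ∑ a, ∑ b, z a * w b * |u a - u b|
      = - 2 * ∑ k ∈ range n, (srt u (k + 1) - srt u k) * (W u k z * W u k w) := by
  let hz' : ℕ → ℝ := fun k => z (Tuple.sort u ⟨min k n, by omega⟩)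
  let hw' : ℕ → ℝ := fun k => w (Tuple.sort u ⟨min k n, by omega⟩)
  have hkey := key hz' hw' (srt u) n (fun i j hij _ => srt_mono u hij)
  have e1 : ∑ m ∈ range (n + 1), hz' m = 0 := by
    have := W_full u z
    unfold W at this
    rw [hz] at this
    exact this
  have e2 : ∑ m ∈ range (n + 1), hw' m = 0 := by
    have := W_full u w
    unfold W at this
    rw [hw] at this
    exact this
  rw [e1, e2] at hkey
  have hL : ∑ a, ∑ b, z a * w b * |u a - u b|
      = ∑ a ∈ range (n + 1), ∑ b ∈ range (n + 1), hz' a * hw' b * |srt u a - srt u b| := by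
    rw [← Equiv.sum_comp (Tuple.sort u), sum_range]
    refine sum_congr rfl fun a _ => ?_
    rw [← Equiv.sum_comp (Tuple.sort u), sum_range]
    refine sum_congr rfl fun b _ => ?_
    have ha : (⟨min (a : ℕ) n, by omega⟩ : Fin (n + 1)) = a := by
      apply Fin.ext
      simp only
      have := a.2
      omega
    have hb : (⟨min (b : ℕ) n, by omega⟩ : Fin (n + 1)) = b := by
      apply Fin.ext
      simp only
      have := b.2
      omega
    simp only [hz', hw', srt, ha, hb]
  rw [hL, hkey, mul_sum]
  refine sum_congr rfl fun k _ => ?_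
  simp only [W, hz', hw']
  ring

/-- The number of strict jumps is less than the number of values. -/
lemma card_jumps (u : Fin (n + 1) → ℝ) :
    ((range n).filter (fun k => srt u k < srt u (k + 1))).card + 1 ≤ (univ.image u).card := by
  have hmem : ∀ k, srt u k ∈ univ.image u := fun k => mem_image_of_mem _ (mem_univ _)
  have h1 : ((range n).filter (fun k => srt u k < srt u (k + 1))).card
      ≤ ((univ.image u).erase (srt u 0)).card := by
    apply card_le_card_of_injOn (fun k => srt u (k + 1))
    · intro k hk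
      have hk' := (mem_filter.1 hk).2
      rw [mem_coe, mem_erase]
      refine ⟨?_, hmem _⟩
      have := srt_mono u (Nat.zero_le k)
      simp only
      exact ne_of_gt (lt_of_le_of_lt this hk')
    · intro k hk l hl hkl
      simp only at hkl
      have hk' := (mem_filter.1 hk).2
      have hl' := (mem_filter.1 hl).2
      by_contra hne
      rcases Nat.lt_or_gt_of_ne hne with h | h
      · have := srt_mono u (show k + 1 ≤ l by omega)
        linarith
      · have := srt_mono u (show l + 1 ≤ k by omega)
        linarith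
  rw [card_erase_of_mem (hmem 0)] at h1
  have : 0 < (univ.image u).card := card_pos.2 ⟨_, hmem 0⟩
  omega

lemma W_add (u z w : Fin (n + 1) → ℝ) (k : ℕ) : W u k (z + w) = W u k z + W u k w := by
  simp [W, sum_add_distrib]

lemma W_smul (u z : Fin (n + 1) → ℝ) (k : ℕ) (c : ℝ) : W u k (c • z) = c * W u k z := by
  simp [W, mul_sum]

end Family

/-- A family of `n + 1 > d + 1` points takes more than `n + d` coordinate values. -/
lemma no_family {d n : ℕ} (hn : d < n) (x : Fin (n + 1) → Fin d → ℝ)
    (hx : ∀ a b, a ≠ b → ∑ i, |x a i - x b i| = 2)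
    (hv : ∑ i, (univ.image (fun a => x a i)).card ≤ n + d) : False := by
  classical
  have hdist : ∀ a b, ∑ i, |x a i - x b i| = 2 - (if a = b then 2 else 0) := by
    intro a b
    by_cases hab : a = b
    · subst hab; simp
    · rw [hx a b hab]; simp [hab]
  let u : Fin d → Fin (n + 1) → ℝ := fun i a => x a i
  -- the basic identity
  have hid : ∀ z w : Fin (n + 1) → ℝ, ∑ a, z a = 0 → ∑ a, w a = 0 →
      ∑ j : Fin d, ∑ k ∈ range n,
        (srt (u j) (k + 1) - srt (u j) k) * (W (u j) k z * W (u j) k w) = ∑ a, z a * w a := by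
    intro z w hz hw
    have h1 : ∑ j : Fin d, ∑ a, ∑ b, z a * w b * |x a j - x b j| = - 2 * ∑ a, z a * w a := by
      rw [sum_comm]
      have : ∀ a, ∑ j : Fin d, ∑ b, z a * w b * |x a j - x b j|
          = ∑ b, z a * w b * (2 - (if a = b then 2 else 0)) := by
        intro a
        rw [sum_comm]
        refine sum_congr rfl fun b _ => ?_
        rw [← mul_sum, hdist]
      simp_rw [this]
      have h2 : ∀ a, ∑ b, z a * w b * (2 - (if a = b then (2 : ℝ) else 0))
          = 2 * z a * (∑ b, w b) - 2 * (z a * w a) := by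
        intro a
        simp_rw [mul_sub, sum_sub_distrib]
        congr 1
        · rw [mul_sum]
          exact sum_congr rfl fun b _ => by ring
        · simp
          ring
      simp_rw [h2, hw]
      rw [mul_sum]
      exact sum_congr rfl fun a _ => by ring
    have h2 : ∀ j : Fin d, ∑ a, ∑ b, z a * w b * |x a j - x b j|
        = -2 * ∑ k ∈ range n, (srt (u j) (k + 1) - srt (u j) k) * (W (u j) k z * W (u j) k w) :=
      fun j => form (u j) z w hz hw
    simp_rw [h2, ← mul_sum] at h1
    linarith
  -- index set of the cuts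
  let I : Finset (Fin d × ℕ) := (univ ×ˢ range n).filter
    (fun p => srt (u p.1) p.2 < srt (u p.1) (p.2 + 1))
  have hIcard : I.card = ∑ i : Fin d, ((range n).filter
      (fun k => srt (u i) k < srt (u i) (k + 1))).card := by
    have : I.card = ∑ p ∈ (univ ×ˢ range n : Finset (Fin d × ℕ)),
        (if srt (u p.1) p.2 < srt (u p.1) (p.2 + 1) then 1 else 0) := by
      rw [card_filter]
    rw [this, sum_product]
    refine sum_congr rfl fun i _ => ?_
    rw [card_filter]
  have hIle : I.card ≤ n := by
    have h1 : ∑ i : Fin d, (((range n).filter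
        (fun k => srt (u i) k < srt (u i) (k + 1))).card + 1) ≤ n + d :=
      (sum_le_sum fun i _ => card_jumps (u i)).trans hv
    rw [sum_add_distrib] at h1
    simp only [sum_const, card_univ, Fintype.card_fin, smul_eq_mul, mul_one] at h1
    rw [hIcard]
    omega
  -- the linear map of all cut functionals
  let L : (Fin (n + 1) → ℝ) →ₗ[ℝ] (Option I → ℝ) :=
    { toFun := fun z o => Option.elim o (∑ a, z a) (fun p => W (u p.1.1) p.1.2 z)
      map_add' := by
        intro z w
        funext o
        cases o with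
        | none => simp [sum_add_distrib]
        | some p => simp [W_add]
      map_smul' := by
        intro c z
        funext o
        cases o with
        | none => simp [mul_sum]
        | some p => simp [W_smul] }
  have hLnone : ∀ z, L z none = ∑ a, z a := fun z => rfl
  have hLsome : ∀ z (p : I), L z (some p) = W (u p.1.1) p.1.2 z := fun z p => rfl
  have hinj : Function.Injective L := by
    rw [← LinearMap.ker_eq_bot, LinearMap.ker_eq_bot']
    intro z hz
    have hz0 : ∑ a, z a = 0 := by rw [← hLnone, hz]; rfl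
    have hsq := hid z z hz0 hz0
    have hzero : ∑ j : Fin d, ∑ k ∈ range n,
        (srt (u j) (k + 1) - srt (u j) k) * (W (u j) k z * W (u j) k z) = 0 := by
      refine sum_eq_zero fun j _ => sum_eq_zero fun k hk => ?_
      by_cases hlt : srt (u j) k < srt (u j) (k + 1)
      · have hmem : (j, k) ∈ I := mem_filter.2 ⟨mem_product.2 ⟨mem_univ _, hk⟩, hlt⟩
        have := hLsome z ⟨(j, k), hmem⟩
        rw [hz] at this
        simp only [Pi.zero_apply] at this
        rw [← this]
        ring
      · have : srt (u j) (k + 1) - srt (u j) k = 0 := by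
          have := srt_mono (u j) (Nat.le_succ k)
          simp only [Nat.succ_eq_add_one] at this
          linarith [not_lt.1 hlt]
        rw [this, zero_mul]
    rw [hzero] at hsq
    have hsq' := (sum_eq_zero_iff_of_nonneg (fun a _ => mul_self_nonneg (z a))).1 hsq.symm
    funext a
    exact mul_self_eq_zero.1 (hsq' a (mem_univ a))
  have hfr1 : Module.finrank ℝ (Fin (n + 1) → ℝ) = n + 1 := by simp
  have hfr2 : Module.finrank ℝ (Option I → ℝ) = I.card + 1 := by
    rw [Module.finrank_pi, Fintype.card_option, Fintype.card_coe]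
  have hle := LinearMap.finrank_le_finrank_of_injective hinj
  rw [hfr1, hfr2] at hle
  have hIeq : I.card = n := by omega
  have hsurj : Function.Surjective L :=
    (LinearMap.injective_iff_surjective_of_finrank_eq_finrank (by rw [hfr1, hfr2, hIeq])).1 hinj
  -- a coordinate with two cuts
  have htwo : ∃ i : Fin d, 2 ≤ ((range n).filter
      (fun k => srt (u i) k < srt (u i) (k + 1))).card := by
    by_contra hcon
    push Not at hcon
    have : ∑ i : Fin d, ((range n).filter
      (fun k => srt (u i) k < srt (u i) (k + 1))).card ≤ ∑ i : Fin d, 1 :=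
      sum_le_sum fun i _ => by have := hcon i; omega
    rw [← hIcard, hIeq] at this
    simp at this
    omega
  obtain ⟨i, hi⟩ := htwo
  obtain ⟨k1, hk1, k2, hk2, hne⟩ := one_lt_card.1 (lt_of_lt_of_le one_lt_two hi)
  -- order them
  obtain ⟨k1, hk1, k2, hk2, hlt⟩ : ∃ k1, k1 ∈ (range n).filter
      (fun k => srt (u i) k < srt (u i) (k + 1)) ∧ ∃ k2, k2 ∈ (range n).filter
      (fun k => srt (u i) k < srt (u i) (k + 1)) ∧ k1 < k2 := by
    rcases Nat.lt_or_gt_of_ne hne with h | h
    · exact ⟨k1, hk1, k2, hk2, h⟩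
    · exact ⟨k2, hk2, k1, hk1, h⟩
  have hm1 : (i, k1) ∈ I := mem_filter.2
    ⟨mem_product.2 ⟨mem_univ _, (mem_filter.1 hk1).1⟩, (mem_filter.1 hk1).2⟩
  have hm2 : (i, k2) ∈ I := mem_filter.2
    ⟨mem_product.2 ⟨mem_univ _, (mem_filter.1 hk2).1⟩, (mem_filter.1 hk2).2⟩
  have hk2n : k2 < n := mem_range.1 (mem_filter.1 hk2).1
  obtain ⟨w, hw⟩ := hsurj (Pi.single (some ⟨(i, k1), hm1⟩) 1)
  have hw0 : ∑ a, w a = 0 := by
    rw [← hLnone, hw]
    simp
  have hw1 : W (u i) k1 w = 1 := by
    have := hLsome w ⟨(i, k1), hm1⟩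
    rw [hw] at this
    simpa using this.symm
  have hwo : ∀ p : I, p ≠ ⟨(i, k1), hm1⟩ → W (u p.1.1) p.1.2 w = 0 := by
    intro p hp
    rw [← hLsome, hw, Pi.single_apply, if_neg]
    intro h
    exact hp (Option.some.inj h)
  -- the second test vector
  let σ := Tuple.sort (u i)
  let q : Fin (n + 1) → ℝ := fun a =>
    (if ((σ.symm a : Fin (n + 1)) : ℕ) ≤ k2 then (1 : ℝ) else 0) - (k2 + 1) / (n + 1)
  have hqσ : ∀ m : ℕ, m ≤ k2 → q (σ ⟨min m n, by omega⟩) = 1 - (k2 + 1) / (n + 1) := by
    intro m hm
    simp only [q, Equiv.symm_apply_apply]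
    rw [if_pos]
    omega
  have hind : ∀ f : Fin (n + 1) → ℝ,
      ∑ a, f a * (if ((σ.symm a : Fin (n + 1)) : ℕ) ≤ k2 then (1 : ℝ) else 0)
        = W (u i) k2 f := by
    intro f
    rw [← Equiv.sum_comp σ]
    simp only [Equiv.symm_apply_apply]
    unfold W
    have h1 : ∑ a : Fin (n + 1), f (σ a) * (if ((a : Fin (n + 1)) : ℕ) ≤ k2 then (1 : ℝ) else 0)
        = ∑ m ∈ range (n + 1), f (σ ⟨min m n, by omega⟩) * (if m ≤ k2 then (1 : ℝ) else 0) := by
      rw [sum_range]
      refine sum_congr rfl fun a _ => ?_
      have ha : (⟨min (a : ℕ) n, by omega⟩ : Fin (n + 1)) = a := by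
        apply Fin.ext
        simp only
        have := a.2
        omega
      rw [ha]
    rw [h1]
    simp only [mul_ite, mul_one, mul_zero]
    rw [← sum_filter]
    refine sum_congr ?_ fun _ _ => rfl
    ext m
    simp only [mem_filter, mem_range]
    omega
  have hq0 : ∑ a, q a = 0 := by
    simp only [q]
    rw [sum_sub_distrib]
    have := hind (fun _ => 1)
    simp only [one_mul] at this
    rw [this]
    simp [W]
    have : (n : ℝ) + 1 ≠ 0 := by positivity
    field_simp
    ring
  have hwq : ∑ a, w a * q a = 0 := by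
    simp only [q, mul_sub]
    rw [sum_sub_distrib, hind w, ← sum_mul, hw0, zero_mul, sub_zero]
    exact hwo ⟨(i, k2), hm2⟩ (by
      intro h
      have := congrArg (fun p : I => p.1.2) h
      simp at this
      omega)
  have hWq : 0 < W (u i) k1 q := by
    unfold W
    have : ∀ m ∈ range (k1 + 1), q (Tuple.sort (u i) ⟨min m n, by omega⟩)
        = 1 - (k2 + 1) / (n + 1) := by
      intro m hm
      exact hqσ m (by have := mem_range.1 hm; omega)
    rw [sum_congr rfl this]
    simp only [sum_const, card_range, nsmul_eq_mul]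
    have h1 : ((k2 : ℝ) + 1) / (n + 1) < 1 := by
      rw [div_lt_one (by positivity)]
      have : (k2 : ℝ) < n := by exact_mod_cast hk2n
      linarith
    apply mul_pos (by positivity)
    linarith
  have hfin := hid w q hw0 hq0
  rw [hwq] at hfin
  have hsingle : ∑ j : Fin d, ∑ k ∈ range n,
        (srt (u j) (k + 1) - srt (u j) k) * (W (u j) k w * W (u j) k q)
      = (srt (u i) (k1 + 1) - srt (u i) k1) * (W (u i) k1 w * W (u i) k1 q) := by
    rw [← sum_product']
    rw [sum_eq_single (i, k1)]
    · rintro ⟨j, k⟩ hjk hne'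
      simp only
      by_cases hlt' : srt (u j) k < srt (u j) (k + 1)
      · have hmem : (j, k) ∈ I := mem_filter.2 ⟨hjk, hlt'⟩
        have := hwo ⟨(j, k), hmem⟩ (by
          intro h
          apply hne'
          exact congrArg (fun p : I => p.1) h)
        simp only at this
        rw [this]
        ring
      · have : srt (u j) (k + 1) - srt (u j) k = 0 := by
          have := srt_mono (u j) (Nat.le_succ k)
          simp only [Nat.succ_eq_add_one] at this
          linarith [not_lt.1 hlt']
        rw [this, zero_mul]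
    · intro h
      exact absurd (mem_product.2 ⟨mem_univ _, (mem_filter.1 hk1).1⟩) h
  rw [hsingle, hw1, one_mul] at hfin
  have hpos : 0 < srt (u i) (k1 + 1) - srt (u i) k1 := sub_pos.2 (mem_filter.1 hk1).2
  have := mul_pos hpos hWq
  linarith

/-- Let `S ⊂ ℝ^d` be `ℓ₁`-equilateral and let `v_i` be the number of distinct values of the `i`-th
coordinate on `S`.  Then `|S| ≤ max (d + 1) (∑ i, (v_i - 1))`; in particular `|S| ≤ 2d` when each
coordinate takes at most three values on `S`. -/
theorem result (d : ℕ) (S : Finset (Fin d → ℝ))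
    (hS : ∀ x ∈ S, ∀ y ∈ S, x ≠ y → ∑ i, |x i - y i| = 2) :
    (S.card ≤ d + 1 ∨ S.card + d ≤ ∑ i, (S.image (fun x => x i)).card) ∧
      (1 ≤ d → (∀ i, (S.image (fun x => x i)).card ≤ 3) → S.card ≤ 2 * d) := by
  classical
  have main : S.card ≤ d + 1 ∨ S.card + d ≤ ∑ i, (S.image (fun x => x i)).card := by
    by_contra hcon
    push Not at hcon
    obtain ⟨h1, h2⟩ := hcon
    obtain ⟨n, hn⟩ : ∃ n, S.card = n + 1 := ⟨S.card - 1, by omega⟩
    let e : Fin (n + 1) ≃ S := (Finset.equivFinOfCardEq hn).symm
    refine no_family (n := n) (by omega) (fun a => (e a : Fin d → ℝ)) ?_ ?_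
    · intro a b hab
      apply hS _ (e a).2 _ (e b).2
      intro h
      exact hab (e.injective (Subtype.ext h))
    · have : ∑ i, (univ.image (fun a => (e a : Fin d → ℝ) i)).card
          ≤ ∑ i, (S.image (fun x => x i)).card := by
        refine sum_le_sum fun i _ => card_le_card ?_
        intro v hv
        obtain ⟨a, -, rfl⟩ := mem_image.1 hv
        exact mem_image_of_mem _ (e a).2
      omega
  refine ⟨main, fun hd hval => ?_⟩
  rcases main with h | h
  · omega
  · have : ∑ i, (S.image (fun x => x i)).card ≤ ∑ _i : Fin d, 3 := sum_le_sum fun i _ => hval i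
    simp at this
    omega

end Pool.H21.MV.ThreeValues
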